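import Pool.Agent.N20.DI.Stm

/-!
# Project DI (helper20), CL2 (helper771): the number of characters of a cyclic extension
-/

set_option autoImplicit false

open scoped Classical BigOperators

noncomputable section

namespace Pool.Agent.N771.DI

open Pool.Agent.R674.Tw (Fixes)
open Pool.Agent.Helper884.IC (B Irr mem_Irr IsClass IsIrrChar B_irr expand cardG_ne)
open Pool.Agent.N20.DI (sN S_CL2)

/-- composition of an irreducible character with an isomorphism -/
theorem irr_comp {G G' : Type} [Group G] [Group G'] (e : G ≃* G') {φ : G' → ℂ}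
    (h : IsIrrChar φ) : IsIrrChar (fun x => φ (e x)) := by
  obtain ⟨V, i1, i2, i3, ρ, h1, rfl⟩ := h
  let ρ' : Representation ℂ G V := ρ.comp e.toMonoidHom
  refine ⟨V, i1, i2, i3, ρ', ?_, rfl⟩
  let o : Subrepresentation ρ' ≃o Subrepresentation ρ :=
    { toFun := fun s => ⟨s.toSubmodule, fun g v hv => by
        have h2 := s.apply_mem_toSubmodule (e.symm g) hv
        have h3 : ρ' (e.symm g) = ρ g := congrArg ρ (e.apply_symm_apply g)
        rwa [h3] at h2⟩
      invFun := fun s => ⟨s.toSubmodule, fun g v hv => s.apply_mem_toSubmodule (e g) hv⟩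
      left_inv := fun s => rfl
      right_inv := fun s => rfl
      map_rel_iff' := Iff.rfl }
  exact o.isSimpleOrder_iff.2 h1

/-- second orthogonality -/
theorem second {G : Type} [Group G] [Fintype G] (a b : G) :
    ∑ ψ ∈ Irr G, ψ a * ψ b⁻¹ = ∑ x : G, if x * a * x⁻¹ = b then (1 : ℂ) else 0 := by
  obtain ⟨f, hf⟩ : ∃ f : G → ℂ, f = fun g => ∑ x : G, if x * g * x⁻¹ = b then (1 : ℂ) else 0 :=
    ⟨_, rfl⟩
  have hcl : IsClass f := by
    intro g y
    rw [hf]
    refine Fintype.sum_equiv (Equiv.mulRight y) _ _ fun x => ?_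
    show (if x * (y * g * y⁻¹) * x⁻¹ = b then (1 : ℂ) else 0) =
      if (x * y) * g * (x * y)⁻¹ = b then 1 else 0
    have e : x * (y * g * y⁻¹) * x⁻¹ = (x * y) * g * (x * y)⁻¹ := by group
    rw [e]
  have hB : ∀ ψ ∈ Irr G, B f ψ = ψ b⁻¹ := by
    intro ψ hψ
    have hψc : IsClass ψ := (mem_Irr.1 hψ).isClass
    unfold B
    rw [hf]
    have e1 : ∀ g : G, (∑ x : G, if x * g * x⁻¹ = b then (1 : ℂ) else 0) * ψ g⁻¹ =
        ∑ x : G, if g = x⁻¹ * b * x then ψ b⁻¹ else 0 := by
      intro g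
      rw [Finset.sum_mul]
      refine Finset.sum_congr rfl fun x _ => ?_
      by_cases h : x * g * x⁻¹ = b
      · have h2 : g = x⁻¹ * b * x := by rw [← h]; group
        rw [if_pos h, if_pos h2, one_mul]
        have h3 : b⁻¹ = x * g⁻¹ * x⁻¹ := by rw [← h]; group
        rw [h3, hψc]
      · have h2 : ¬ g = x⁻¹ * b * x := fun h2 => h (by rw [h2]; group)
        rw [if_neg h, if_neg h2, zero_mul]
    simp only [e1]
    rw [Finset.sum_comm]
    have e2 : ∀ x : G, (∑ g : G, if g = x⁻¹ * b * x then ψ b⁻¹ else 0) = ψ b⁻¹ := by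
      intro x
      rw [Finset.sum_ite_eq' Finset.univ]
      simp
    simp only [e2]
    rw [Finset.sum_const, Finset.card_univ, nsmul_eq_mul, ← Nat.card_eq_fintype_card, ← mul_assoc,
      inv_mul_cancel₀ cardG_ne, one_mul]
  have h1 := congrFun (expand f hcl) a
  rw [Finset.sum_apply] at h1
  rw [hf] at h1
  rw [← hf] at h1
  have h2 : (∑ x : G, if x * a * x⁻¹ = b then (1 : ℂ) else 0) = f a := by rw [hf]
  rw [h2, h1]
  refine Finset.sum_congr rfl fun ψ hψ => ?_
  rw [Pi.smul_apply, smul_eq_mul, hB ψ hψ, mul_comm]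

/-- the number of commuting pairs -/
theorem comm_pairs (G : Type) [Group G] [Fintype G] :
    ∑ a : G, ∑ b : G, (if a * b = b * a then (1 : ℂ) else 0) =
      (Nat.card G : ℂ) * ((Irr G).card : ℂ) := by
  have h1 : ∀ a : G, ∑ b : G, (if a * b = b * a then (1 : ℂ) else 0) =
      ∑ ψ ∈ Irr G, ψ a * ψ a⁻¹ := by
    intro a
    rw [second]
    refine Finset.sum_congr rfl fun x _ => ?_
    have : a * x = x * a ↔ x * a * x⁻¹ = a := by
      rw [mul_inv_eq_iff_eq_mul, eq_comm]
    simp only [this]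
  simp only [h1]
  rw [Finset.sum_comm]
  have h2 : ∀ ψ ∈ Irr G, ∑ a : G, ψ a * ψ a⁻¹ = (Nat.card G : ℂ) := by
    intro ψ hψ
    have h3 := B_irr (mem_Irr.1 hψ) (mem_Irr.1 hψ)
    rw [if_pos rfl] at h3
    unfold B at h3
    have h4 : (Nat.card G : ℂ) ≠ 0 := cardG_ne
    field_simp at h3
    exact h3
  rw [Finset.sum_congr rfl h2, Finset.sum_const, nsmul_eq_mul, mul_comm]

section main

variable {M : Type} [Group M] [Fintype M] (N : Subgroup M) [N.Normal] [Fintype N]

/-- the number of the commuting pairs in the cosets of `a` and `b` -/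
def Q (a b : M) : ℂ := ∑ x : N, ∑ y : N,
  if ((x : M) * a) * ((y : M) * b) = ((y : M) * b) * ((x : M) * a) then (1 : ℂ) else 0

/-- the number of the characters which are fixed by `a` and `b` -/
def R (a b : M) : ℂ := ∑ ψ ∈ Irr N, if Fixes a ψ ∧ Fixes b ψ then (1 : ℂ) else 0

theorem Q_symm (a b : M) : Q N a b = Q N b a := by
  unfold Q
  rw [Finset.sum_comm]
  refine Finset.sum_congr rfl fun x _ => Finset.sum_congr rfl fun y _ => ?_
  have : ((y : M) * a) * ((x : M) * b) = ((x : M) * b) * ((y : M) * a) ↔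
    ((x : M) * b) * ((y : M) * a) = ((y : M) * a) * ((x : M) * b) := eq_comm
  simp only [this]

theorem R_symm (a b : M) : R N a b = R N b a := by
  unfold R
  refine Finset.sum_congr rfl fun ψ _ => ?_
  simp only [and_comm]

theorem Q_mul (a b : M) : Q N a (a * b) = Q N a b := by
  unfold Q
  refine Finset.sum_congr rfl fun x _ => ?_
  symm
  refine Fintype.sum_equiv ((MulAut.conjNormal a : MulAut N).toEquiv.trans (Equiv.mulLeft x)) _ _
    fun y => ?_
  have e : (((((MulAut.conjNormal a : MulAut N).toEquiv.trans (Equiv.mulLeft x)) y : N)) : M) =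
      (x : M) * (a * y * a⁻¹) := by
    simp [MulAut.conjNormal_apply]
  rw [e]
  have e2 : (x : M) * (a * y * a⁻¹) * (a * b) = ((x : M) * a) * ((y : M) * b) := by group
  rw [e2]
  generalize (x : M) * a = u
  generalize (y : M) * b = v
  have : u * v = v * u ↔ u * (u * v) = u * v * u := by
    rw [mul_assoc u v u, mul_right_inj]
  simp only [this]

theorem fixes_mul {ψ : N → ℂ} {a : M} (ha : Fixes a ψ) (b : M) : Fixes (a * b) ψ ↔ Fixes b ψ := by
  constructor
  · intro h n n' hn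
    have h1 : (((MulAut.conjNormal a : MulAut N) n' : N) : M) = (a * b) * n * (a * b)⁻¹ := by
      rw [MulAut.conjNormal_apply, hn]
      group
    have h2 := h n _ h1
    have h3 := ha n' _ (MulAut.conjNormal_apply a n')
    rw [← h2, h3]
  · intro h n n' hn
    have h1 := h n _ (MulAut.conjNormal_apply b n)
    have h2 := ha ((MulAut.conjNormal b : MulAut N) n) n' (by
      rw [MulAut.conjNormal_apply, hn]
      group)
    rw [h2, h1]

theorem R_mul (a b : M) : R N a (a * b) = R N a b := by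
  unfold R
  refine Finset.sum_congr rfl fun ψ _ => ?_
  have : (Fixes a ψ ∧ Fixes (a * b) ψ) ↔ (Fixes a ψ ∧ Fixes b ψ) :=
    and_congr_right fun h => fixes_mul N h b
  simp only [this]

theorem Q_left (n : N) (a b : M) : Q N (n * a) b = Q N a b := by
  unfold Q
  refine Fintype.sum_equiv (Equiv.mulRight n) _ _ fun x => ?_
  refine Finset.sum_congr rfl fun y _ => ?_
  have e : (((Equiv.mulRight n) x : N) : M) * a = (x : M) * (n * a) := by
    simp [mul_assoc]
  rw [e]

theorem fixes_of_mem {ψ : N → ℂ} (hψ : IsIrrChar ψ) (n : N) : Fixes (n : M) ψ := by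
  intro x x' hx
  have : x' = n * x * n⁻¹ := Subtype.ext (by simpa using hx)
  rw [this, hψ.isClass]

theorem R_left (n : N) (a b : M) : R N (n * a) b = R N a b := by
  unfold R
  refine Finset.sum_congr rfl fun ψ hψ => ?_
  have : (Fixes ((n : M) * a) ψ ∧ Fixes b ψ) ↔ (Fixes a ψ ∧ Fixes b ψ) :=
    and_congr_left fun _ => fixes_mul N (fixes_of_mem N (mem_Irr.1 hψ) n) a
  simp only [this]

theorem Q_one (a : M) : Q N a 1 = (Nat.card N : ℂ) * R N a 1 := by
  have h1 : R N a 1 = ∑ ψ ∈ Irr N,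
      B (fun n : N => ψ ((MulAut.conjNormal a : MulAut N) n)) ψ := by
    unfold R
    refine Finset.sum_congr rfl fun ψ hψ => ?_
    have hψ' := mem_Irr.1 hψ
    rw [B_irr (irr_comp (MulAut.conjNormal a : MulAut N) hψ') hψ']
    have : (Fixes a ψ ∧ Fixes (1 : M) ψ) ↔
        (fun n : N => ψ ((MulAut.conjNormal a : MulAut N) n)) = ψ := by
      constructor
      · rintro ⟨h, -⟩
        funext n
        exact h n _ (MulAut.conjNormal_apply a n)
      · intro h
        refine ⟨fun n n' hn => ?_, ?_⟩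
        · have e : n' = (MulAut.conjNormal a : MulAut N) n :=
            Subtype.ext (by rw [MulAut.conjNormal_apply, hn])
          rw [e]
          exact congrFun h n
        · have := fixes_of_mem N hψ' (1 : N)
          simpa using this
    simp only [this]
  rw [h1]
  unfold B
  rw [← Finset.mul_sum, ← mul_assoc, mul_inv_cancel₀ cardG_ne, one_mul, Finset.sum_comm]
  have h2 : ∀ n : N, ∑ ψ ∈ Irr N, ψ ((MulAut.conjNormal a : MulAut N) n) * ψ n⁻¹ =
      ∑ x : N, if x * (MulAut.conjNormal a : MulAut N) n * x⁻¹ = n then (1 : ℂ) else 0 :=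
    fun n => (second _ _).trans (Finset.sum_congr rfl fun x _ => by congr)
  simp only [h2]
  unfold Q
  rw [Finset.sum_comm]
  refine Finset.sum_congr rfl fun n _ => Finset.sum_congr rfl fun x _ => ?_
  have : ((x : M) * a) * ((n : M) * 1) = ((n : M) * 1) * ((x : M) * a) ↔
      x * (MulAut.conjNormal a : MulAut N) n * x⁻¹ = n := by
    rw [Subtype.ext_iff]
    push_cast
    rw [MulAut.conjNormal_apply, mul_one]
    constructor
    · intro h
      calc (x : M) * (a * n * a⁻¹) * (x : M)⁻¹ = ((x : M) * a * n) * ((x : M) * a)⁻¹ := by group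
        _ = (n : M) * ((x : M) * a) * ((x : M) * a)⁻¹ := by rw [h]
        _ = n := by group
    · intro h
      calc (x : M) * a * n = ((x : M) * (a * n * a⁻¹) * (x : M)⁻¹) * ((x : M) * a) := by group
        _ = n * ((x : M) * a) := by rw [h]
  simp only [this]

theorem Q_pow (a b : M) (k : ℕ) : Q N a (a ^ k * b) = Q N a b := by
  induction k with
  | zero => rw [pow_zero, one_mul]
  | succ k ih => rw [pow_succ', mul_assoc, Q_mul, ih]

theorem R_pow (a b : M) (k : ℕ) : R N a (a ^ k * b) = R N a b := by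
  induction k with
  | zero => rw [pow_zero, one_mul]
  | succ k ih => rw [pow_succ', mul_assoc, R_mul, ih]

theorem QR_pow (g : M) (i j : ℕ) : Q N (g ^ i) (g ^ j) = (Nat.card N : ℂ) * R N (g ^ i) (g ^ j) := by
  induction i, j using Nat.gcd.induction with
  | H0 j => rw [pow_zero, Q_symm, Q_one, R_symm]
  | H1 i j hi ih =>
    have e : g ^ j = (g ^ i) ^ (j / i) * g ^ (j % i) := by
      rw [← pow_mul, ← pow_add, Nat.div_add_mod]
    rw [e, Q_pow, R_pow, Q_symm, ih, R_symm]

theorem exists_rep (hc : IsCyclic (M ⧸ N)) : ∃ g : M, ∀ a : M, ∃ (n : N) (i : ℕ),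
    a = n * g ^ i := by
  obtain ⟨q, hq⟩ := hc.exists_generator
  obtain ⟨g, rfl⟩ := QuotientGroup.mk_surjective q
  refine ⟨g, fun a => ?_⟩
  have h1 := hq (QuotientGroup.mk a)
  have hfin : Finite (M ⧸ N) := Quotient.finite _
  rw [← mem_powers_iff_mem_zpowers] at h1
  obtain ⟨i, hi⟩ := h1
  have h2 : (QuotientGroup.mk (g ^ i) : M ⧸ N) = QuotientGroup.mk a := hi
  rw [eq_comm, QuotientGroup.eq_iff_div_mem] at h2
  exact ⟨⟨a / g ^ i, h2⟩, i, by simp⟩

theorem QR (hc : IsCyclic (M ⧸ N)) (a b : M) : Q N a b = (Nat.card N : ℂ) * R N a b := by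
  obtain ⟨g, hg⟩ := exists_rep N hc
  obtain ⟨n, i, rfl⟩ := hg a
  obtain ⟨m, j, rfl⟩ := hg b
  rw [Q_left, R_left, Q_symm, Q_left, R_symm, R_left, Q_symm, R_symm, QR_pow]

theorem sum_Q : ∑ a : M, ∑ b : M, Q N a b =
    (Nat.card N : ℂ) ^ 2 * ((Nat.card M : ℂ) * ((Irr M).card : ℂ)) := by
  unfold Q
  have h1 : ∑ a : M, ∑ b : M, ∑ x : N, ∑ y : N,
      (if ((x : M) * a) * ((y : M) * b) = ((y : M) * b) * ((x : M) * a) then (1 : ℂ) else 0) =
      ∑ x : N, ∑ y : N, ∑ a : M, ∑ b : M,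
      (if ((x : M) * a) * ((y : M) * b) = ((y : M) * b) * ((x : M) * a) then (1 : ℂ) else 0) := by
    calc _ = ∑ a : M, ∑ x : N, ∑ b : M, ∑ y : N,
        (if ((x : M) * a) * ((y : M) * b) = ((y : M) * b) * ((x : M) * a) then (1 : ℂ) else 0) :=
          Finset.sum_congr rfl fun a _ => Finset.sum_comm
      _ = ∑ x : N, ∑ a : M, ∑ b : M, ∑ y : N,
        (if ((x : M) * a) * ((y : M) * b) = ((y : M) * b) * ((x : M) * a) then (1 : ℂ) else 0) :=
          Finset.sum_comm
      _ = ∑ x : N, ∑ a : M, ∑ y : N, ∑ b : M,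
        (if ((x : M) * a) * ((y : M) * b) = ((y : M) * b) * ((x : M) * a) then (1 : ℂ) else 0) :=
          Finset.sum_congr rfl fun x _ => Finset.sum_congr rfl fun a _ => Finset.sum_comm
      _ = _ := Finset.sum_congr rfl fun x _ => Finset.sum_comm
  have h2 : ∀ x y : N, ∑ a : M, ∑ b : M,
      (if ((x : M) * a) * ((y : M) * b) = ((y : M) * b) * ((x : M) * a) then (1 : ℂ) else 0) =
      (Nat.card M : ℂ) * ((Irr M).card : ℂ) := by
    intro x y
    rw [← comm_pairs M]
    refine Fintype.sum_equiv (Equiv.mulLeft (x : M)) _ _ fun a => ?_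
    exact Fintype.sum_equiv (Equiv.mulLeft (y : M)) _ _ fun b => rfl
  rw [h1]
  simp only [h2, Finset.sum_const, Finset.card_univ, nsmul_eq_mul, ← Nat.card_eq_fintype_card]
  ring

theorem sN_eq (ψ : N → ℂ) : ((sN N ψ : ℕ) : ℂ) = ∑ a : M, if Fixes a ψ then (1 : ℂ) else 0 := by
  unfold sN
  rw [Nat.card_eq_fintype_card, Fintype.card_subtype, Finset.card_filter]
  push_cast
  rfl

theorem sum_R : ∑ a : M, ∑ b : M, R N a b = ∑ ψ ∈ Irr N, ((sN N ψ : ℕ) : ℂ) ^ 2 := by
  unfold R
  have h1 : ∑ a : M, ∑ b : M, ∑ ψ ∈ Irr N, (if Fixes a ψ ∧ Fixes b ψ then (1 : ℂ) else 0) =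
      ∑ ψ ∈ Irr N, ∑ a : M, ∑ b : M, (if Fixes a ψ ∧ Fixes b ψ then (1 : ℂ) else 0) := by
    calc _ = ∑ a : M, ∑ ψ ∈ Irr N, ∑ b : M, (if Fixes a ψ ∧ Fixes b ψ then (1 : ℂ) else 0) :=
          Finset.sum_congr rfl fun a _ => Finset.sum_comm
      _ = _ := Finset.sum_comm
  rw [h1]
  refine Finset.sum_congr rfl fun ψ _ => ?_
  rw [sN_eq, pow_two, Finset.sum_mul_sum]
  refine Finset.sum_congr rfl fun a _ => Finset.sum_congr rfl fun b _ => ?_
  by_cases ha : Fixes a ψ <;> by_cases hb : Fixes b ψ <;> simp [ha, hb]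

end main

/-- **CL2** -/
theorem CL2 : S_CL2 := by
  intro M _ _ N _ _ hc
  have h1 := sum_Q N
  have h2 : ∑ a : M, ∑ b : M, Q N a b = (Nat.card N : ℂ) * ∑ a : M, ∑ b : M, R N a b := by
    rw [Finset.mul_sum]
    refine Finset.sum_congr rfl fun a _ => ?_
    rw [Finset.mul_sum]
    exact Finset.sum_congr rfl fun b _ => QR N hc a b
  rw [h2, sum_R] at h1
  have hN : (Nat.card N : ℂ) ≠ 0 := cardG_ne
  have h3 : ∑ ψ ∈ Irr N, ((sN N ψ : ℕ) : ℂ) ^ 2 =
      (Nat.card M : ℂ) * (Nat.card N : ℂ) * ((Irr M).card : ℂ) := by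
    apply mul_left_cancel₀ hN
    rw [h1]
    ring
  exact_mod_cast h3

end Pool.Agent.N771.DI
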