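import Mathlib
import Pool.Agent.N604.MW.Stm11

/-!
# Project GC (helper604), leaf CPER: periodic properties (helper771)
-/

set_option autoImplicit false

namespace Pool.Agent.N771.GC604

open MeasureTheory Pool.Agent.N604.MW

theorem cper : S_CPER := by
  intro s P hP hper
  rw [ae_restrict_iff' measurableSet_Icc] at hP
  rw [ae_iff] at hP ⊢
  set N : Set (Fin s → ℝ) := {γ | ¬ (γ ∈ Set.Icc (fun _ => (0 : ℝ)) (fun _ => 1) → P γ)} with hN
  have hsub : {γ : Fin s → ℝ | ¬ P γ} ⊆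
      ⋃ b : Fin s → ℤ, (fun γ : Fin s → ℝ => γ + (fun i => (b i : ℝ))) ⁻¹' N := by
    intro γ hγ
    rw [Set.mem_iUnion]
    refine ⟨fun i => - ⌊γ i⌋, ?_⟩
    show ¬ ((γ + fun i => ((-⌊γ i⌋ : ℤ) : ℝ)) ∈ Set.Icc (fun _ => (0 : ℝ)) (fun _ => 1) →
      P (γ + fun i => ((-⌊γ i⌋ : ℤ) : ℝ)))
    intro h
    have h1 : (γ + fun i => ((-⌊γ i⌋ : ℤ) : ℝ)) ∈ Set.Icc (fun _ => (0 : ℝ)) (fun _ => 1) := by
      constructor
      · intro i
        show (0 : ℝ) ≤ γ i + ((-⌊γ i⌋ : ℤ) : ℝ)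
        push_cast
        linarith [Int.floor_le (γ i)]
      · intro i
        show γ i + ((-⌊γ i⌋ : ℤ) : ℝ) ≤ 1
        push_cast
        linarith [Int.lt_floor_add_one (γ i)]
    have h2 := hper _ (fun i => ⌊γ i⌋) (h h1)
    apply hγ
    have h3 : (fun i => (γ + fun i => ((-⌊γ i⌋ : ℤ) : ℝ)) i + ((⌊γ i⌋ : ℤ) : ℝ)) = γ := by
      funext i
      show γ i + ((-⌊γ i⌋ : ℤ) : ℝ) + ((⌊γ i⌋ : ℤ) : ℝ) = γ i
      push_cast
      ring
    rwa [h3] at h2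
  refine measure_mono_null hsub (measure_iUnion_null fun b => ?_)
  rw [measure_preimage_add_right]
  exact hP

end Pool.Agent.N771.GC604
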