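import Pool.Agent.N580.AU.Stm3

/-!
# Project AU (helper580), leaf BIG3: a large progression in a union (helper771)
-/

set_option autoImplicit false

namespace Pool.Agent.N771.AU

open Finset Pool.Agent.N580.AU

theorem big3 : BIG3 := by
  classical
  intro G _ _ F k g T S hS hne
  obtain ⟨P, hP, hSP⟩ := hS
  obtain ⟨a, ha⟩ := hne
  obtain ⟨n₁, hn₁⟩ := (hSP a).1 ha
  obtain ⟨n₀, -, hmax⟩ := Finset.exists_max_image (Finset.univ : Finset (Fin T)) (fun n => (P n).card)
    ⟨n₁, Finset.mem_univ _⟩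
  have h1 : 1 ≤ (P n₀).card :=
    (Finset.card_pos.2 ⟨a, hn₁⟩).trans_le (hmax n₁ (Finset.mem_univ _))
  rcases hP n₀ with h | ⟨n, h⟩
  · rw [h, Finset.card_empty] at h1
    omega
  refine ⟨P n₀, n, h, fun x hx => (hSP x).2 ⟨n₀, hx⟩, ?_⟩
  calc S.card ≤ (Finset.univ.biUnion P).card := by
        refine Finset.card_le_card fun x hx => ?_
        obtain ⟨n, hn⟩ := (hSP x).1 hx
        exact Finset.mem_biUnion.2 ⟨n, Finset.mem_univ _, hn⟩
    _ ≤ ∑ n, (P n).card := Finset.card_biUnion_le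
    _ ≤ ∑ _n : Fin T, (P n₀).card := Finset.sum_le_sum fun n _ => hmax n (Finset.mem_univ _)
    _ = T * (P n₀).card := by
        rw [Finset.sum_const, Finset.card_univ, Fintype.card_fin, smul_eq_mul]

end Pool.Agent.N771.AU
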