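import Pool.Agent.N979.CAP.Stm

/-! # Project CAP (helper979), POL (helper771): comass in polar coordinates from the idealised form -/

set_option autoImplicit false

namespace Pool.Agent.N771.CAP_POL

open Real MeasureTheory Set Filter Topology Finset
open Pool.Agent.N979.CAP

lemma DD_ge {s : ℝ} (hs : s ∈ Set.Icc (0 : ℝ) (471 / 500)) (ψ : ℝ) : 1 / 9 ≤ DD s ψ := by
  obtain ⟨h0, h1⟩ := hs
  unfold DD
  have h2 : cos ψ ^ 2 ≤ 1 := Real.cos_sq_le_one ψ
  have h3 : 0 ≤ cos ψ ^ 2 := sq_nonneg _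
  have h4 : s ^ 2 ≤ (471 / 500) ^ 2 := pow_le_pow_left₀ h0 h1 2
  have h5 : s ^ 2 * cos ψ ^ 2 ≤ (471 / 500) ^ 2 * 1 := mul_le_mul h4 h2 h3 (by norm_num)
  norm_num at h5 ⊢
  linarith

lemma sqD_ge {s : ℝ} (hs : s ∈ Set.Icc (0 : ℝ) (471 / 500)) (ψ : ℝ) : 1 / 3 ≤ √(DD s ψ) := by
  refine Real.le_sqrt_of_sq_le ?_
  have := DD_ge hs ψ
  norm_num at this ⊢
  exact this

lemma c_ge {s : ℝ} (hs : s ∈ Set.Icc (0 : ℝ) (471 / 500)) : 1 / 3 ≤ √(1 - s ^ 2) := by
  have h := sqD_ge hs 0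
  unfold DD at h
  simpa using h

lemma DD_add_pi (s ψ : ℝ) : DD s (ψ + π) = DD s ψ := by
  unfold DD
  rw [Real.cos_add_pi, neg_sq]

lemma sm_bound {N : ℕ} (hN : 1 ≤ N) (φ : ℝ) {f : ℝ → ℝ} {v : ℕ → ℝ} {C : ℝ}
    (hf : ∀ ψ, |f ψ| ≤ C) (hv : ∀ j, |v j| ≤ 1) : |sm N φ f v| ≤ π * C := by
  have hN0 : (0 : ℝ) < N := by exact_mod_cast hN
  have hC : 0 ≤ C := (abs_nonneg _).trans (hf 0)
  unfold sm
  rw [abs_mul, abs_of_pos (by positivity : 0 < π / (N : ℝ))]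
  have h1 : |∑ j ∈ range N, f (ps N φ j) * v j| ≤ N * C := by
    calc |∑ j ∈ range N, f (ps N φ j) * v j| ≤ ∑ j ∈ range N, |f (ps N φ j) * v j| :=
          abs_sum_le_sum_abs _ _
      _ ≤ ∑ _j ∈ range N, C := by
          refine sum_le_sum fun j _ => ?_
          rw [abs_mul]
          calc |f (ps N φ j)| * |v j| ≤ C * 1 := mul_le_mul (hf _) (hv j) (abs_nonneg _) hC
            _ = C := mul_one _
      _ = N * C := by rw [sum_const, card_range, nsmul_eq_mul]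
  calc π / N * |∑ j ∈ range N, f (ps N φ j) * v j| ≤ π / N * (N * C) := by gcongr
    _ = π * C := by field_simp

lemma kernel_bound {s : ℝ} (hs : s ∈ Set.Icc (0 : ℝ) (471 / 500)) (ψ : ℝ) {u w : ℝ}
    (hu : |u| ≤ 1) (hw : |w| ≤ 1) : |2 / π * u * w / (DD s ψ * √(DD s ψ))| ≤ 18 := by
  have h1 := DD_ge hs ψ
  have h2 := sqD_ge hs ψ
  have hpos : 0 < DD s ψ * √(DD s ψ) := mul_pos (by linarith) (by linarith)
  have h3 : 1 / 27 ≤ DD s ψ * √(DD s ψ) := by
    calc (1 : ℝ) / 27 = 1 / 9 * (1 / 3) := by norm_num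
      _ ≤ _ := mul_le_mul h1 h2 (by norm_num) (by linarith)
  rw [abs_div, abs_of_pos hpos, div_le_iff₀ hpos, abs_mul, abs_mul]
  have h4 : |2 / π| ≤ 2 / 3 := by
    rw [abs_of_pos (by positivity)]
    have := Real.pi_gt_three
    exact div_le_div_of_nonneg_left (by norm_num) (by norm_num) this.le
  have h5 : |2 / π| * |u| * |w| ≤ 2 / 3 * 1 * 1 := by gcongr
  linarith

lemma xr_bound {s : ℝ} (hs : s ∈ Set.Icc (0 : ℝ) (471 / 500)) (ψ : ℝ) : |xr s ψ| ≤ 18 := by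
  unfold xr
  refine kernel_bound hs ψ ?_ (Real.abs_cos_le_one ψ)
  obtain ⟨h0, h1⟩ := hs
  rw [abs_le]
  constructor <;> nlinarith

lemma xt_bound {s : ℝ} (hs : s ∈ Set.Icc (0 : ℝ) (471 / 500)) (ψ : ℝ) : |xt s ψ| ≤ 18 := by
  unfold xt
  refine kernel_bound hs ψ ?_ (Real.abs_sin_le_one ψ)
  rw [abs_of_nonneg (Real.sqrt_nonneg _), Real.sqrt_le_one]
  have := sq_nonneg s
  linarith

lemma cont_aux {g : ℝ → ℝ} (hg : Continuous g) :
    ContinuousOn (fun p : ℝ × ℝ => g p.1 / √(DD p.2 p.1))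
      (Set.univ ×ˢ Set.Icc (0 : ℝ) (471 / 500)) := by
  refine ContinuousOn.div ?_ ?_ ?_
  · exact (hg.comp continuous_fst).continuousOn
  · refine Continuous.continuousOn ?_
    unfold DD
    fun_prop
  · intro p hp
    have := sqD_ge hp.2 p.1
    intro h
    rw [h] at this
    norm_num at this

/-- the equations for the derivatives of the centre -/
lemma eqs {N : ℕ} (s φ : ℝ) {r t : ℝ} {v : ℕ → ℝ} (f : ℝ → ℝ)
    (h : ∑ j ∈ range N, f (ps N φ j) / √(DD s (ps N φ j))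
      * (cos (ps N φ j) * r + sin (ps N φ j) * t) = ∑ j ∈ range N, f (ps N φ j) * v j) :
    (π / N * ∑ j ∈ range N, f (ps N φ j) * cos (ps N φ j) / √(DD s (ps N φ j))) * r +
      (π / N * ∑ j ∈ range N, f (ps N φ j) * sin (ps N φ j) / √(DD s (ps N φ j))) * t =
      sm N φ f v := by
  unfold sm
  rw [← h, mul_assoc, mul_assoc, ← mul_add, Finset.sum_mul, Finset.sum_mul, ← sum_add_distrib]
  congr 1
  refine sum_congr rfl fun j _ => ?_
  ring

lemma rt_bound {R5 R6 R7 A B r t : ℝ} (h5 : 1 ≤ R5) (h6 : 1 ≤ R6) (h7 : |R7| ≤ 1 / 2)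
    (hA : |A| ≤ π) (hB : |B| ≤ π) (e1 : R5 * r + R7 * t = A) (e2 : R7 * r + R6 * t = B) :
    |r| ≤ 10 ∧ |t| ≤ 10 := by
  have hpi := Real.pi_lt_d2
  have hpi0 := Real.pi_pos
  have k1 : R5 * r ^ 2 + 2 * (R7 * (r * t)) + R6 * t ^ 2 = A * r + B * t := by
    rw [← e1, ← e2]
    ring
  have k2 : A * r ≤ π * |r| := by
    calc A * r ≤ |A * r| := le_abs_self _
      _ = |A| * |r| := abs_mul _ _
      _ ≤ π * |r| := by gcongr
  have k3 : B * t ≤ π * |t| := by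
    calc B * t ≤ |B * t| := le_abs_self _
      _ = |B| * |t| := abs_mul _ _
      _ ≤ π * |t| := by gcongr
  have k4 : -(1 / 2 * (|r| * |t|)) ≤ R7 * (r * t) := by
    have : |R7 * (r * t)| ≤ 1 / 2 * (|r| * |t|) := by
      rw [abs_mul, abs_mul]
      gcongr
    exact (abs_le.1 this).1
  have k5 : r ^ 2 = |r| ^ 2 := (sq_abs r).symm
  have k6 : t ^ 2 = |t| ^ 2 := (sq_abs t).symm
  have hr := abs_nonneg r
  have ht := abs_nonneg t
  generalize |r| = x at *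
  generalize |t| = y at *
  rw [k5, k6] at k1
  have k7 : x ^ 2 ≤ R5 * x ^ 2 := by nlinarith [sq_nonneg x]
  have k8 : y ^ 2 ≤ R6 * y ^ 2 := by nlinarith [sq_nonneg y]
  have k9 : x ^ 2 + y ^ 2 - x * y ≤ π * x + π * y := by linarith
  have k10 : (x ^ 2 + y ^ 2) / 2 ≤ π * x + π * y := by nlinarith [sq_nonneg (x - y)]
  constructor
  · by_contra hlt
    rw [not_le] at hlt
    nlinarith [sq_nonneg (y - π)]
  · by_contra hlt
    rw [not_le] at hlt
    nlinarith [sq_nonneg (x - π)]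

lemma diff_l {η c I R5 R7 r t A : ℝ} (hη : 0 ≤ η) (hc : 1 / 3 ≤ c) (hI : 3 / 2 ≤ I)
    (h5 : |R5 - I| ≤ η) (h7 : |R7| ≤ η) (hr : |r| ≤ 10) (ht : |t| ≤ 10)
    (e : R5 * r + R7 * t = A) : |r / c - A / (c * I)| ≤ 40 * η := by
  have hc0 : 0 < c := by linarith
  have hI0 : 0 < I := by linarith
  have e1 : r / c - A / (c * I) = -((R5 - I) * r + R7 * t) / (c * I) := by
    rw [← e]
    field_simp
    ring
  rw [e1, abs_div, abs_neg, abs_of_pos (by positivity : 0 < c * I), div_le_iff₀ (by positivity)]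
  have k1 : |(R5 - I) * r + R7 * t| ≤ η * 10 + η * 10 := by
    refine (abs_add_le _ _).trans ?_
    rw [abs_mul, abs_mul]
    gcongr
  have k2 : 1 / 3 * (3 / 2) ≤ c * I := by gcongr
  nlinarith

lemma diff_k {η I R6 R7 r t B : ℝ} (hη : 0 ≤ η) (hI : 3 / 2 ≤ I)
    (h6 : |R6 - I| ≤ η) (h7 : |R7| ≤ η) (hr : |r| ≤ 10) (ht : |t| ≤ 10)
    (e : R7 * r + R6 * t = B) : |t - B / I| ≤ 40 * η := by
  have hI0 : 0 < I := by linarith
  have e1 : t - B / I = -(R7 * r + (R6 - I) * t) / I := by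
    rw [← e]
    field_simp
    ring
  rw [e1, abs_div, abs_neg, abs_of_pos hI0, div_le_iff₀ hI0]
  have k1 : |R7 * r + (R6 - I) * t| ≤ η * 10 + η * 10 := by
    refine (abs_add_le _ _).trans ?_
    rw [abs_mul, abs_mul]
    gcongr
  nlinarith

/-- the perturbation -/
lemma perturb {δ ra rb ta tb la lb ka kb na nb ma mb : ℝ} (hδ : 0 ≤ δ)
    (h1 : |ra - la| ≤ δ) (h2 : |rb - lb| ≤ δ) (h3 : |ta - ka| ≤ δ) (h4 : |tb - kb| ≤ δ)
    (hta : |ta| ≤ 10) (htb : |tb| ≤ 10) (hla : |la| ≤ 10) (hlb : |lb| ≤ 10)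
    (hna : |na| ≤ 60) (hnb : |nb| ≤ 60) (hma : |ma| ≤ 60) (hmb : |mb| ≤ 60) :
    (ra * mb - rb * ma) + (na * tb - nb * ta) - (ra * tb - rb * ta) ≤
      (la * mb - lb * ma) + (na * kb - nb * ka) - (la * kb - lb * ka) + 280 * δ := by
  have key : ∀ x y C : ℝ, |x| ≤ δ → |y| ≤ C → x * y ≤ δ * C := fun x y C hx hy => by
    calc x * y ≤ |x * y| := le_abs_self _
      _ = |x| * |y| := abs_mul _ _
      _ ≤ δ * C := by gcongr
  have key2 : ∀ x y C : ℝ, |x| ≤ δ → |y| ≤ C → -(x * y) ≤ δ * C := fun x y C hx hy => by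
    calc -(x * y) ≤ |x * y| := neg_le_abs _
      _ = |x| * |y| := abs_mul _ _
      _ ≤ δ * C := by gcongr
  have a1 := key _ _ _ h1 hmb
  have a2 := key2 _ _ _ h2 hma
  have a3 := key _ _ _ h4 hna
  have a4 := key2 _ _ _ h3 hnb
  have a5 := key2 _ _ _ h1 htb
  have a6 := key2 _ _ _ h4 hla
  have a7 := key _ _ _ h2 hta
  have a8 := key _ _ _ h3 hlb
  nlinarith

theorem main (hI : S_INT) (hR : S_RIE) (hN : S_NUM) (h : S_IDL) : S_POL := by
  intro ε hε
  obtain ⟨η, hηdef⟩ : ∃ η : ℝ, η = min (1 / 2) (ε / 22400) := ⟨_, rfl⟩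
  have hη0 : 0 < η := by rw [hηdef]; exact lt_min (by norm_num) (by positivity)
  have hη1 : η ≤ 1 / 2 := by rw [hηdef]; exact min_le_left _ _
  have hη2 : 22400 * η ≤ ε := by
    have : η ≤ ε / 22400 := by rw [hηdef]; exact min_le_right _ _
    rw [le_div_iff₀ (by norm_num)] at this
    linarith
  obtain ⟨N5, h5⟩ := hR (471 / 500) (by norm_num) (fun ψ s => cos ψ * cos ψ / √(DD s ψ))
    (cont_aux (g := fun ψ => cos ψ * cos ψ) (by fun_prop)) (fun ψ s => by rw [DD_add_pi, Real.cos_add_pi]; ring) η hη0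
  obtain ⟨N6, h6⟩ := hR (471 / 500) (by norm_num) (fun ψ s => sin ψ * sin ψ / √(DD s ψ))
    (cont_aux (g := fun ψ => sin ψ * sin ψ) (by fun_prop)) (fun ψ s => by rw [DD_add_pi, Real.sin_add_pi]; ring) η hη0
  obtain ⟨N7, h7⟩ := hR (471 / 500) (by norm_num) (fun ψ s => cos ψ * sin ψ / √(DD s ψ))
    (cont_aux (g := fun ψ => cos ψ * sin ψ) (by fun_prop)) (fun ψ s => by
      rw [DD_add_pi, Real.sin_add_pi, Real.cos_add_pi]; ring) η hη0
  obtain ⟨N4, h4⟩ := h (ε / 2) (by positivity)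
  refine ⟨max (max N5 N6) (max (max N7 N4) 1), ?_⟩
  intro N hNN s hs φ a b hab ra rb ta tb e1 e2 e3 e4
  have hN5 : N5 ≤ N := le_trans (le_trans (le_max_left _ _) (le_max_left _ _)) hNN
  have hN6 : N6 ≤ N := le_trans (le_trans (le_max_right _ _) (le_max_left _ _)) hNN
  have hN7 : N7 ≤ N := le_trans (le_trans (le_trans (le_max_left _ _) (le_max_left _ _))
    (le_max_right _ _)) hNN
  have hN4 : N4 ≤ N := le_trans (le_trans (le_trans (le_max_right _ _) (le_max_left _ _))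
    (le_max_right _ _)) hNN
  have hN1 : 1 ≤ N := le_trans (le_trans (le_max_right _ _) (le_max_right _ _)) hNN
  have hN0 : (0 : ℝ) < N := by exact_mod_cast hN1
  obtain ⟨hs0, hs1⟩ := hs
  have hs' : s ∈ Set.Icc (0 : ℝ) (471 / 500) := ⟨hs0, hs1⟩
  have hpi := Real.pi_gt_three
  have hpi2 := Real.pi_lt_d2
  have h5 := h5 N hN5 s hs' φ
  have h6 := h6 N hN6 s hs' φ
  have h7 := h7 N hN7 s hs' φ
  have i5 : ∫ ψ in (0 : ℝ)..π, cos ψ * cos ψ / √(DD s ψ) = Ir s := by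
    unfold Ir
    refine intervalIntegral.integral_congr fun ψ _ => ?_
    simp only [pow_two]
  have i6 : ∫ ψ in (0 : ℝ)..π, sin ψ * sin ψ / √(DD s ψ) = It s := by
    unfold It
    refine intervalIntegral.integral_congr fun ψ _ => ?_
    simp only [pow_two]
  have i7 : ∫ ψ in (0 : ℝ)..π, cos ψ * sin ψ / √(DD s ψ) = 0 := by
    refine Eq.trans ?_ (hI.odd fun t => 1 / √(1 - s ^ 2 * t))
    refine intervalIntegral.integral_congr fun ψ _ => ?_
    simp only [DD]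
    ring
  simp only [i5] at h5
  simp only [i6] at h6
  simp only [i7, sub_zero] at h7
  have hIr := hN.ir s hs0 hs1
  have hIt := hN.it s hs0 hs1
  have hc := c_ge hs'
  obtain ⟨c, hcdef⟩ : ∃ c : ℝ, c = √(1 - s ^ 2) := ⟨_, rfl⟩
  have hcsq : c ^ 2 = 1 - s ^ 2 := by
    rw [hcdef, Real.sq_sqrt]
    nlinarith
  rw [← hcdef] at hc
  have hc0 : 0 < c := by linarith
  -- the Riemann sums
  have E1 := eqs s φ cos e1
  have E2 := eqs s φ sin e2
  have E3 := eqs s φ cos e3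
  have E4 := eqs s φ sin e4
  obtain ⟨R5, hR5⟩ : ∃ R5 : ℝ, R5 = π / N * ∑ j ∈ range N,
    cos (ps N φ j) * cos (ps N φ j) / √(DD s (ps N φ j)) := ⟨_, rfl⟩
  obtain ⟨R6, hR6⟩ : ∃ R6 : ℝ, R6 = π / N * ∑ j ∈ range N,
    sin (ps N φ j) * sin (ps N φ j) / √(DD s (ps N φ j)) := ⟨_, rfl⟩
  obtain ⟨R7, hR7⟩ : ∃ R7 : ℝ, R7 = π / N * ∑ j ∈ range N,
    cos (ps N φ j) * sin (ps N φ j) / √(DD s (ps N φ j)) := ⟨_, rfl⟩
  have hR7' : π / N * ∑ j ∈ range N,
      sin (ps N φ j) * cos (ps N φ j) / √(DD s (ps N φ j)) = R7 := by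
    rw [hR7]
    congr 1
    exact sum_congr rfl fun j _ => by ring
  rw [← hR5, ← hR7] at E1 E3
  rw [hR7', ← hR6] at E2 E4
  have h5' : |R5 - Ir s| ≤ η := by rw [hR5]; exact h5
  have h6' : |R6 - It s| ≤ η := by rw [hR6]; exact h6
  have h7' : |R7| ≤ η := by rw [hR7]; exact h7
  have hR51 : 1 ≤ R5 := by have := (abs_le.1 h5').1; linarith
  have hR61 : 1 ≤ R6 := by have := (abs_le.1 h6').1; linarith
  have hR71 : |R7| ≤ 1 / 2 := h7'.trans hη1
  -- bounds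
  have ha1 : ∀ j, |a j| ≤ 1 := fun j => by
    rw [← sq_le_one_iff_abs_le_one]
    have := hab j
    nlinarith [sq_nonneg (b j)]
  have hb1 : ∀ j, |b j| ≤ 1 := fun j => by
    rw [← sq_le_one_iff_abs_le_one]
    have := hab j
    nlinarith [sq_nonneg (a j)]
  have bcos : ∀ v : ℕ → ℝ, (∀ j, |v j| ≤ 1) → |sm N φ cos v| ≤ π := fun v hv => by
    have := sm_bound hN1 φ (f := cos) (C := 1) Real.abs_cos_le_one hv
    rwa [mul_one] at this
  have bsin : ∀ v : ℕ → ℝ, (∀ j, |v j| ≤ 1) → |sm N φ sin v| ≤ π := fun v hv => by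
    have := sm_bound hN1 φ (f := sin) (C := 1) Real.abs_sin_le_one hv
    rwa [mul_one] at this
  have bxr : ∀ v : ℕ → ℝ, (∀ j, |v j| ≤ 1) → |sm N φ (xr s) v| ≤ 60 := fun v hv => by
    have := sm_bound hN1 φ (f := xr s) (C := 18) (xr_bound hs') hv
    linarith
  have bxt : ∀ v : ℕ → ℝ, (∀ j, |v j| ≤ 1) → |sm N φ (xt s) v| ≤ 60 := fun v hv => by
    have := sm_bound hN1 φ (f := xt s) (C := 18) (xt_bound hs') hv
    linarith
  obtain ⟨hra, hta⟩ := rt_bound hR51 hR61 hR71 (bcos a ha1) (bsin a ha1) E1 E2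
  obtain ⟨hrb, htb⟩ := rt_bound hR51 hR61 hR71 (bcos b hb1) (bsin b hb1) E3 E4
  have dla := diff_l hη0.le hc (by linarith : 3 / 2 ≤ Ir s) h5' h7' hra hta E1
  have dlb := diff_l hη0.le hc (by linarith : 3 / 2 ≤ Ir s) h5' h7' hrb htb E3
  have dka := diff_k hη0.le (by linarith : 3 / 2 ≤ It s) h6' h7' hra hta E2
  have dkb := diff_k hη0.le (by linarith : 3 / 2 ≤ It s) h6' h7' hrb htb E4
  have hlb : ∀ A : ℝ, |A| ≤ π → |A / (c * Ir s)| ≤ 10 := fun A hA => by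
    have k2 : 1 / 3 * (3 / 2) ≤ c * Ir s := mul_le_mul hc (by linarith) (by norm_num) hc0.le
    have k3 : 0 < c * Ir s := by linarith
    rw [abs_div, abs_of_pos k3, div_le_iff₀ k3]
    linarith
  have P := perturb (na := sm N φ (xr s) a) (nb := sm N φ (xr s) b) (ma := sm N φ (xt s) a)
    (mb := sm N φ (xt s) b) (by positivity : 0 ≤ 40 * η) dla dlb dka dkb hta htb
    (hlb _ (bcos a ha1)) (hlb _ (bcos b hb1)) (bxr a ha1) (bxr b hb1) (bxt a ha1) (bxt b hb1)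
  have Q := h4 N hN4 s hs' φ a b hab _ _ _ _ _ _ _ _ rfl rfl rfl rfl rfl rfl rfl rfl
  rw [← hcdef] at Q
  -- the expression
  have hX : π / N * ∑ j ∈ range N, 2 / π / (DD s (ps N φ j) * √(DD s (ps N φ j)))
        * (sin (ps N φ j) * (ra * b j - rb * a j)
          - (1 - s ^ 2) * cos (ps N φ j) * (ta * b j - tb * a j))
      - (ra * tb - rb * ta) / √(1 - s ^ 2) =
      (ra / c * sm N φ (xt s) b - rb / c * sm N φ (xt s) a) +
        (sm N φ (xr s) a * tb - sm N φ (xr s) b * ta) - (ra / c * tb - rb / c * ta) := by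
    rw [← hcdef]
    have e5 : π / N * ∑ j ∈ range N, 2 / π / (DD s (ps N φ j) * √(DD s (ps N φ j)))
        * (sin (ps N φ j) * (ra * b j - rb * a j)
          - (1 - s ^ 2) * cos (ps N φ j) * (ta * b j - tb * a j)) =
        (ra / c * sm N φ (xt s) b - rb / c * sm N φ (xt s) a) +
        (sm N φ (xr s) a * tb - sm N φ (xr s) b * ta) := by
      unfold sm
      have e6 : ∀ x y z w S1 S2 S3 S4 : ℝ, (x * (π / N * S1) - y * (π / N * S2)) +
          (π / N * S3 * z - π / N * S4 * w) = π / N * ((x * S1 - y * S2) + (S3 * z - S4 * w)) := by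
        intros
        ring
      rw [e6]
      congr 1
      rw [Finset.mul_sum, Finset.mul_sum, Finset.sum_mul, Finset.sum_mul, ← sum_sub_distrib,
        ← sum_sub_distrib, ← sum_add_distrib]
      refine sum_congr rfl fun j _ => ?_
      unfold xr xt
      rw [← hcdef]
      have hD := DD_ge hs' (ps N φ j)
      have hD2 := sqD_ge hs' (ps N φ j)
      generalize √(DD s (ps N φ j)) = D2 at *
      generalize DD s (ps N φ j) = D1 at *
      have hD0 : D1 ≠ 0 := by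
        intro h0
        rw [h0] at hD
        norm_num at hD
      have hD20 : D2 ≠ 0 := by
        intro h0
        rw [h0] at hD2
        norm_num at hD2
      have hpi0 : π ≠ 0 := Real.pi_ne_zero
      field_simp
      ring
    rw [e5]
    ring
  rw [hX]
  refine P.trans ?_
  linarith

end Pool.Agent.N771.CAP_POL
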